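import Pool.Agent.H85.GF.NORMB

/-!
# MP_cd65c5_nt: cubic fields of large discriminant (module GAP3)
-/

set_option autoImplicit false

namespace Pool.Agent.H85.GF

open Polynomial NumberField Module Pool.Agent.H7.GF

lemma embeddings_distinct {F : Type} [Field F] [NumberField F] (hF : finrank ℚ F = 3) (ε : 𝓞 F)
    (hε : ∀ z : ℤ, ε ≠ (z : 𝓞 F)) {σ τ : F →ₐ[ℚ] ℂ} (h : σ (ε : F) = τ (ε : F)) : σ = τ := by
  have hs : IsSimpleOrder (Subalgebra ℚ F) := by
    apply Subalgebra.isSimpleOrder_of_finrank_prime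
    rw [hF]; exact Nat.prime_three
  have hmem : (ε : F) ∈ AlgHom.equalizer σ τ := h
  rcases hs.eq_bot_or_eq_top (AlgHom.equalizer σ τ) with h1 | h1
  · exfalso
    rw [h1, Algebra.mem_bot] at hmem
    obtain ⟨q, hq⟩ := hmem
    have hint : IsIntegral ℤ (algebraMap ℚ F q) := by
      rw [hq]; exact ε.isIntegral_coe
    rw [isIntegral_algebraMap_iff (algebraMap ℚ F).injective] at hint
    obtain ⟨z, hz⟩ := (IsIntegrallyClosed.isIntegral_iff (R := ℤ) (K := ℚ)).1 hint
    apply hε z
    apply RingOfIntegers.ext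
    rw [← hq, ← hz]
    simp
  · ext x
    have : x ∈ AlgHom.equalizer σ τ := by rw [h1]; exact Algebra.mem_top
    exact this

lemma vandermonde3 (v : Fin 3 → ℂ) :
    (Matrix.vandermonde v).det = (v 1 - v 0) * (v 2 - v 0) * (v 2 - v 1) := by
  rw [Matrix.det_fin_three]
  simp only [Matrix.vandermonde_apply]
  simp
  ring

/-- the discriminant is bounded by the size of a non rational integer -/
lemma disc_le {F : Type} [Field F] [NumberField F] (hF : finrank ℚ F = 3) (ε : 𝓞 F)
    (hε : ∀ z : ℤ, ε ≠ (z : 𝓞 F)) {M : ℝ} (hM : ∀ w : InfinitePlace F, w (ε : F) ≤ M) :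
    ((discr F).natAbs : ℝ) ≤ (2 * M) ^ 6 := by
  classical
  have hM0 : 0 ≤ M := by
    obtain ⟨w⟩ := (inferInstance : Nonempty (InfinitePlace F))
    exact (apply_nonneg w _).trans (hM w)
  have hcard : Fintype.card (Free.ChooseBasisIndex ℤ (𝓞 F)) = 3 := by
    rw [← finrank_eq_card_chooseBasisIndex, RingOfIntegers.rank, hF]
  set e0 : Free.ChooseBasisIndex ℤ (𝓞 F) ≃ Fin 3 := Fintype.equivFinOfCardEq hcard with he0
  set e : Fin 3 ≃ (F →ₐ[ℚ] ℂ) := (Fintype.equivFinOfCardEq (by rw [AlgHom.card, hF])).symm with he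
  set vO : Free.ChooseBasisIndex ℤ (𝓞 F) → 𝓞 F := fun i => ε ^ ((e0 i : Fin 3) : ℕ) with hvO
  set v : Free.ChooseBasisIndex ℤ (𝓞 F) → F := fun i => ((vO i : 𝓞 F) : F) with hv
  set P : Matrix (Free.ChooseBasisIndex ℤ (𝓞 F)) (Free.ChooseBasisIndex ℤ (𝓞 F)) ℤ :=
    (RingOfIntegers.basis F).toMatrix vO with hP
  have hPQ : (integralBasis F).toMatrix v = P.map (algebraMap ℤ ℚ) := by
    ext i j
    rw [Basis.toMatrix_apply, Matrix.map_apply, hP, Basis.toMatrix_apply]
    exact integralBasis_repr_apply F (vO j) i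
  have h1 : Algebra.discr ℚ v = (P.det : ℚ) ^ 2 * (discr F : ℚ) := by
    have h2 := Algebra.discr_of_matrix_vecMul (A := ℚ) (integralBasis F) ((integralBasis F).toMatrix v)
    rw [Basis.toMatrix_map_vecMul, ← coe_discr, hPQ] at h2
    rw [h2]
    congr 2
    rw [← RingHom.mapMatrix_apply, ← RingHom.map_det]
    simp
  have h3 := Algebra.discr_eq_det_embeddingsMatrixReindex_pow_two (K := ℚ) (L := F) ℂ v (e0.trans e)
  have h4 : (Algebra.embeddingsMatrixReindex ℚ ℂ v (e0.trans e)).det =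
      (Matrix.vandermonde (fun i : Fin 3 => e i (ε : F))).det := by
    have h5 : Algebra.embeddingsMatrixReindex ℚ ℂ v (e0.trans e) =
        ((Matrix.vandermonde (fun i : Fin 3 => e i (ε : F))).transpose).submatrix e0 e0 := by
      ext i j
      simp [Algebra.embeddingsMatrixReindex, Algebra.embeddingsMatrix, hv, hvO]
    rw [h5, Matrix.det_submatrix_equiv_self, Matrix.det_transpose]
  rw [h4, vandermonde3] at h3
  have hne : ∀ i j : Fin 3, i ≠ j → e i (ε : F) - e j (ε : F) ≠ 0 := by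
    intro i j hij h0
    exact hij (e.injective (embeddings_distinct hF ε hε (sub_eq_zero.1 h0)))
  have hbd : ∀ i : Fin 3, ‖e i (ε : F)‖ ≤ M := by
    intro i
    have := hM (InfinitePlace.mk (e i : F →+* ℂ))
    rw [InfinitePlace.apply] at this
    exact this
  have hbd2 : ∀ i j : Fin 3, ‖e i (ε : F) - e j (ε : F)‖ ≤ 2 * M := fun i j =>
    (norm_sub_le _ _).trans (by linarith [hbd i, hbd j])
  rw [h1] at h3
  have hPne : P.det ≠ 0 := by
    intro h0
    rw [h0] at h3
    simp only [Int.cast_zero, ne_eq, OfNat.ofNat_ne_zero, not_false_eq_true, zero_pow, zero_mul,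
      map_zero] at h3
    exact (pow_ne_zero 2 (mul_ne_zero (mul_ne_zero (hne 1 0 (by decide)) (hne 2 0 (by decide)))
      (hne 2 1 (by decide)))) h3.symm
  have h6 := congrArg (fun z : ℂ => ‖z‖) h3
  simp only [norm_pow, norm_mul] at h6
  have h7 : ‖(algebraMap ℚ ℂ) ((P.det : ℚ) ^ 2 * (discr F : ℚ))‖ =
      ((P.det.natAbs : ℝ)) ^ 2 * ((discr F).natAbs : ℝ) := by
    rw [map_mul, map_pow, norm_mul, norm_pow]
    simp only [eq_ratCast, Rat.cast_intCast, Complex.norm_intCast]
    rw [← Int.cast_abs, ← Int.cast_abs, Int.abs_eq_natAbs, Int.abs_eq_natAbs]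
    simp
  rw [h7] at h6
  have h8 : (1 : ℝ) ≤ ((P.det.natAbs : ℝ)) ^ 2 := by
    have : 1 ≤ P.det.natAbs := Int.natAbs_pos.2 hPne
    have h9 : (1 : ℝ) ≤ (P.det.natAbs : ℝ) := by exact_mod_cast this
    exact one_le_pow₀ h9
  calc ((discr F).natAbs : ℝ) ≤ ((P.det.natAbs : ℝ)) ^ 2 * ((discr F).natAbs : ℝ) :=
        le_mul_of_one_le_left (Nat.cast_nonneg _) h8
    _ = _ := h6
    _ ≤ ((2 * M) * (2 * M) * (2 * M)) ^ 2 := by
        gcongr
        · exact hbd2 1 0
        · exact hbd2 2 0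
        · exact hbd2 2 1
    _ = _ := by ring

lemma unit_int {F : Type} [Field F] [NumberField F] (hF : finrank ℚ F = 3) {ε : 𝓞 F}
    (hu : IsUnit ε) {z : ℤ} (hz : ε = (z : 𝓞 F)) : ε = 1 ∨ ε = -1 := by
  have h1 : IsUnit (Algebra.norm ℤ ε) := hu.map _
  have h3 : Algebra.norm ℤ ε = z ^ 3 := by
    have := Algebra.norm_algebraMap (S := 𝓞 F) z
    rw [RingOfIntegers.rank, hF] at this
    rw [hz]
    exact_mod_cast this
  rw [h3, isUnit_pow_iff (by norm_num)] at h1
  rcases Int.isUnit_iff.1 h1 with h | h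
  · left; rw [hz, h]; simp
  · right; rw [hz, h]; simp

/-- **GAP3** -/
theorem gap3 : T_GAP3 := by
  intro b hb
  obtain ⟨K0, hK0⟩ := normb 3 (by norm_num) b hb
  refine ⟨|K0| * 156 ^ 2 + 2 * (2 ^ (b.natAbs ^ 3) * 80 ^ 2), ?_⟩
  intro F _ _ hF B hB hD
  set D : ℕ := (discr F).natAbs with hDdef
  have hB1 : 1 ≤ B ^ (1 / 2 : ℝ) := Real.one_le_rpow (by linarith) (by norm_num)
  have hD1 : (1 : ℝ) ≤ D := hB1.trans hD
  have hBD : Real.log B ≤ 2 * Real.log D := by
    have h1 := Real.log_le_log (by linarith) hD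
    rw [Real.log_rpow (by linarith)] at h1
    linarith
  have hLB : 0 < Real.log B := Real.log_pos (by linarith)
  have hl2 := Real.log_two_lt_d9
  have hl2' := Real.log_two_gt_d9
  rcases le_or_gt (Real.log D) (78 * Real.log 2) with hsmall | hlarge
  · obtain ⟨-, h2⟩ := hK0 F hF B hB
    refine h2.trans ?_
    have h3 : Real.log B ^ (3 - 1) ≤ 156 ^ 2 := by
      have : Real.log B ≤ 156 := by nlinarith
      exact pow_le_pow_left₀ hLB.le this 2
    calc K0 * Real.log B ^ (3 - 1) ≤ |K0| * 156 ^ 2 := by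
          refine (mul_le_mul_of_nonneg_right (le_abs_self K0) (by positivity)).trans ?_
          exact mul_le_mul_of_nonneg_left h3 (abs_nonneg _)
      _ ≤ _ := by
          have : (0 : ℝ) ≤ 2 * (2 ^ (b.natAbs ^ 3) * 80 ^ 2) := by positivity
          linarith
  · have hlD : 0 < Real.log D := lt_trans (by positivity) hlarge
    have hs : 0 < Real.log D / 13 := by positivity
    have hU : {ε : 𝓞 F | IsUnit ε ∧ ∀ w : InfinitePlace F,
        w (ε : F) ≤ Real.exp ((((3 : ℕ) : ℝ) - 1) * (Real.log D / 13))}.ncard ≤ 2 := by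
      have hsub : {ε : 𝓞 F | IsUnit ε ∧ ∀ w : InfinitePlace F,
        w (ε : F) ≤ Real.exp ((((3 : ℕ) : ℝ) - 1) * (Real.log D / 13))} ⊆ {1, -1} := by
        rintro ε ⟨hu, hw⟩
        by_cases hz : ∃ z : ℤ, ε = (z : 𝓞 F)
        · obtain ⟨z, hz⟩ := hz
          exact unit_int hF hu hz
        · exfalso
          push Not at hz
          have h1 := disc_le hF ε hz hw
          rw [← hDdef] at h1
          have h2 : (2 * Real.exp ((((3 : ℕ) : ℝ) - 1) * (Real.log D / 13))) ^ 6 =
              64 * Real.exp (12 * (Real.log D / 13)) := by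
            rw [mul_pow, ← Real.exp_nat_mul]
            congr 1
            · norm_num
            · congr 1; push_cast; ring
          rw [h2] at h1
          have h3 : (D : ℝ) = Real.exp (Real.log D) := (Real.exp_log (by linarith)).symm
          have h4 : (64 : ℝ) = Real.exp (6 * Real.log 2) := by
            rw [show (6 : ℝ) * Real.log 2 = ((6 : ℕ) : ℝ) * Real.log 2 by norm_num, Real.exp_nat_mul,
              Real.exp_log (by norm_num)]
            norm_num
          rw [h3, h4, ← Real.exp_add, Real.exp_le_exp, Real.log_exp] at h1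
          linarith
      refine (Set.ncard_le_ncard hsub (by simp)).trans ?_
      exact (Set.ncard_insert_le _ _).trans (by rw [Set.ncard_singleton])
    obtain ⟨-, h2⟩ := core hF hb hB hs hU
    refine h2.trans ?_
    have h3 : (((3 : ℕ) : ℝ) * Real.log B / (Real.log D / 13) + 2) ^ (Fintype.card (InfinitePlace F) - 1) ≤
        80 ^ 2 := by
      have h4 : ((3 : ℕ) : ℝ) * Real.log B / (Real.log D / 13) + 2 ≤ 80 := by
        have h5 : ((3 : ℕ) : ℝ) * Real.log B / (Real.log D / 13) ≤ 78 := by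
          rw [div_le_iff₀ hs]
          push_cast
          linarith
        linarith
      calc (((3 : ℕ) : ℝ) * Real.log B / (Real.log D / 13) + 2) ^ (Fintype.card (InfinitePlace F) - 1)
          ≤ 80 ^ (Fintype.card (InfinitePlace F) - 1) := pow_le_pow_left₀ (by positivity) h4 _
        _ ≤ 80 ^ 2 := pow_le_pow_right₀ (by norm_num) (by have := card_places_le hF; omega)
    calc ((2 : ℕ) : ℝ) * (2 ^ (b.natAbs ^ 3) * (((3 : ℕ) : ℝ) * Real.log B / (Real.log D / 13) + 2) ^
          (Fintype.card (InfinitePlace F) - 1)) ≤ 2 * (2 ^ (b.natAbs ^ 3) * 80 ^ 2) := by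
          push_cast
          gcongr
          exact_mod_cast h3
      _ ≤ _ := by
          have : 0 ≤ |K0| * 156 ^ 2 := by positivity
          linarith

end Pool.Agent.H85.GF
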