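import Pool.Agent.H85.GF.CORE

/-!
# MP_cd65c5_nt: integers of given norm in a box (module NORMB)
-/

set_option autoImplicit false

namespace Pool.Agent.H85.GF

open Polynomial NumberField Module Pool.Agent.H7.GF

lemma card_places_le {F : Type} [Field F] [NumberField F] {n : ℕ} (hn : finrank ℚ F = n) :
    Fintype.card (InfinitePlace F) ≤ n := by
  rw [← hn, ← InfinitePlace.sum_mult_eq, Fintype.card_eq_sum_ones]
  exact Finset.sum_le_sum fun w _ => mult_pos' w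

lemma box_card {F : Type} [Field F] [NumberField F] {n : ℕ} (hn : finrank ℚ F = n) {E : ℝ}
    (hE : 1 ≤ E) {M : ℕ} (hM : (6 * E) ^ n < M + 1) :
    {ε : 𝓞 F | IsUnit ε ∧ ∀ w : InfinitePlace F, w (ε : F) ≤ E}.ncard ≤ M := by
  obtain ⟨h1, h2⟩ := pack F (fun _ => E) (fun _ => hE)
  have h3 : {ε : 𝓞 F | IsUnit ε ∧ ∀ w : InfinitePlace F, w (ε : F) ≤ E}.ncard ≤
      {γ : 𝓞 F | ∀ w : InfinitePlace F, w (γ : F) ≤ E}.ncard :=
    Set.ncard_le_ncard (fun γ hγ => hγ.2) h1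
  have h4 : ∏ w : InfinitePlace F, (6 * E) ^ w.mult = (6 * E) ^ n := by
    rw [Finset.prod_pow_eq_pow_sum, InfinitePlace.sum_mult_eq, hn]
  rw [h4] at h2
  have h5 : ({γ : 𝓞 F | ∀ w : InfinitePlace F, w (γ : F) ≤ E}.ncard : ℝ) < ((M + 1 : ℕ) : ℝ) := by
    push_cast; exact lt_of_le_of_lt h2 hM
  have h6 : {γ : 𝓞 F | ∀ w : InfinitePlace F, w (γ : F) ≤ E}.ncard < M + 1 := by exact_mod_cast h5
  omega

/-- **NORMB** -/
theorem normb : T_NORMB := by
  intro n hn b hb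
  refine ⟨(6 * Real.exp (((n : ℝ) - 1) * 1)) ^ n * (2 ^ (b.natAbs ^ n) * ((n : ℝ) + 4) ^ (n - 1)), ?_⟩
  intro F _ _ hF B hB
  have hn1 : (1 : ℝ) ≤ n := by exact_mod_cast hn
  have hE : 1 ≤ Real.exp (((n : ℝ) - 1) * 1) := Real.one_le_exp (by linarith)
  set M : ℕ := ⌊(6 * Real.exp (((n : ℝ) - 1) * 1)) ^ n⌋₊ with hM
  have hMc : {ε : 𝓞 F | IsUnit ε ∧ ∀ w : InfinitePlace F,
      w (ε : F) ≤ Real.exp (((n : ℝ) - 1) * 1)}.ncard ≤ M :=
    box_card hF hE (Nat.lt_floor_add_one _)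
  obtain ⟨h1, h2⟩ := core hF hb hB one_pos hMc
  refine ⟨h1, h2.trans ?_⟩
  have hMle : (M : ℝ) ≤ (6 * Real.exp (((n : ℝ) - 1) * 1)) ^ n :=
    Nat.floor_le (by positivity)
  have hL : (1 / 2 : ℝ) ≤ Real.log B := by
    have := Real.log_two_gt_d9
    have h3 := Real.log_le_log (by norm_num : (0 : ℝ) < 2) hB
    linarith
  have hcells : (n * Real.log B / 1 + 2) ^ (Fintype.card (InfinitePlace F) - 1) ≤
      ((n : ℝ) + 4) ^ (n - 1) * Real.log B ^ (n - 1) := by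
    rw [← mul_pow, div_one]
    have h4 : n * Real.log B + 2 ≤ ((n : ℝ) + 4) * Real.log B := by linarith
    have h5 : 1 ≤ ((n : ℝ) + 4) * Real.log B := by nlinarith
    calc (n * Real.log B + 2) ^ (Fintype.card (InfinitePlace F) - 1)
        ≤ (((n : ℝ) + 4) * Real.log B) ^ (Fintype.card (InfinitePlace F) - 1) :=
          pow_le_pow_left₀ (by positivity) h4 _
      _ ≤ _ := pow_le_pow_right₀ h5 (Nat.sub_le_sub_right (card_places_le hF) 1)
  calc (M : ℝ) * (2 ^ (b.natAbs ^ n) * (n * Real.log B / 1 + 2) ^ (Fintype.card (InfinitePlace F) - 1))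
      ≤ (6 * Real.exp (((n : ℝ) - 1) * 1)) ^ n * (2 ^ (b.natAbs ^ n) *
        (((n : ℝ) + 4) ^ (n - 1) * Real.log B ^ (n - 1))) := by
        gcongr
    _ = _ := by ring

end Pool.Agent.H85.GF
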