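import Pool.Agent.H7.GF.Targets1
import Pool.Agent.H7.GF.Basic

/-!
# MP_cd65c5_nt: sizes and norm of a root of `pol b a` (module ROOTB)
-/

set_option autoImplicit false

namespace Pool.Agent.H85.GF

open Polynomial NumberField Module Pool.Agent.H7.GF

lemma charpoly_lmul_eq {F : Type} [Field F] [NumberField F] {θ : 𝓞 F}
    (h : (minpoly ℤ θ).natDegree = finrank ℚ F) :
    (Algebra.lmul ℤ (𝓞 F) θ).charpoly = minpoly ℤ θ := by
  have hint : IsIntegral ℤ θ := Algebra.IsIntegral.isIntegral θ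
  have h1 : minpoly ℤ θ ∣ (Algebra.lmul ℤ (𝓞 F) θ).charpoly :=
    minpoly.isIntegrallyClosed_dvd hint (Algebra.aeval_self_charpoly_lmul θ)
  have h2 : (Algebra.lmul ℤ (𝓞 F) θ).charpoly.natDegree = finrank ℚ F := by
    rw [LinearMap.charpoly_natDegree, RingOfIntegers.rank]
  exact (eq_of_monic_of_dvd_of_natDegree_le (minpoly.monic hint)
    (LinearMap.charpoly_monic _) h1 (by rw [h2, h]))

lemma abs_norm_eq {F : Type} [Field F] [NumberField F] {θ : 𝓞 F}
    (h : (minpoly ℤ θ).natDegree = finrank ℚ F) :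
    |Algebra.norm ℤ θ| = |(minpoly ℤ θ).coeff 0| := by
  rw [Algebra.norm_apply, LinearMap.det_eq_sign_charpoly_coeff, charpoly_lmul_eq h, abs_mul,
    abs_pow, abs_neg, abs_one, one_pow, one_mul]

/-- **ROOTB** -/
theorem rootb : T_ROOTB := by
  intro m H b a ha F _ _ θ hθ hd
  refine ⟨fun w => ?_, ?_⟩
  · rw [← InfinitePlace.norm_embedding_eq]
    set z := w.embedding (θ : F) with hz
    have hroot : (pol (b : ℂ) (fun i => (a i : ℂ))).IsRoot z := by
      have h1 : (pol b a).map (Int.castRingHom ℂ) = pol (b : ℂ) (fun i => (a i : ℂ)) := by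
        rw [pol_map]; rfl
      rw [← h1, ← hθ, IsRoot.def, eval_map, hz]
      have h3 := congrArg (w.embedding.comp (algebraMap (𝓞 F) F)) (minpoly.aeval ℤ θ)
      rw [aeval_def, hom_eval₂, map_zero] at h3
      rw [RingHom.ext_int (Int.castRingHom ℂ)
        ((w.embedding.comp (algebraMap (𝓞 F) F)).comp (algebraMap ℤ (𝓞 F)))]
      exact h3
    have hne : pol (b : ℂ) (fun i => (a i : ℂ)) ≠ 0 := (pol_monic _ _).ne_zero
    have h5 := IsRoot.norm_lt_cauchyBound hne hroot
    have h6 : (cauchyBound (pol (b : ℂ) (fun i => (a i : ℂ))) : ℝ) ≤ H + |(b : ℝ)| + 1 := by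
      have h8 : cauchyBound (pol (b : ℂ) (fun i => (a i : ℂ))) ≤ H + ‖(b : ℂ)‖₊ + 1 := by
        unfold cauchyBound
        rw [(pol_monic _ _).leadingCoeff, nnnorm_one, div_one]
        gcongr
        refine Finset.sup_le fun j hj => ?_
        rw [Finset.mem_range, pol_natDegree] at hj
        rcases Nat.eq_zero_or_pos j with rfl | hj0
        · rw [pol_coeff_zero]
          exact le_add_of_nonneg_left zero_le
        · obtain ⟨i, rfl⟩ : ∃ i, j = i + 1 := ⟨j - 1, by omega⟩
          have := pol_coeff_succ (b : ℂ) (fun i => (a i : ℂ)) ⟨i, by omega⟩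
          simp only at this
          rw [this]
          refine le_add_of_le_of_nonneg ?_ zero_le
          have h9 := mem_box.1 ha ⟨i, by omega⟩
          rw [← NNReal.coe_le_coe, coe_nnnorm, Complex.norm_intCast, NNReal.coe_natCast]
          exact_mod_cast h9
      have h9 : ((cauchyBound (pol (b : ℂ) (fun i => (a i : ℂ))) : NNReal) : ℝ) ≤
          ((H + ‖(b : ℂ)‖₊ + 1 : NNReal) : ℝ) := NNReal.coe_le_coe.2 h8
      refine h9.trans (le_of_eq ?_)
      push_cast
      rw [Complex.norm_intCast]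
    have h7 : ‖z‖ < (cauchyBound (pol (b : ℂ) (fun i => (a i : ℂ))) : ℝ) := by
      exact_mod_cast h5
    exact h7.le.trans h6
  · rw [abs_norm_eq (by rw [hθ, pol_natDegree, hd]), hθ, pol_coeff_zero]

end Pool.Agent.H85.GF
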