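import Pool.Agent.H85.GF.PACK

/-!
# MP_cd65c5_nt: counting integers of given norm modulo units (common part of NORMB and GAP3)
-/

set_option autoImplicit false

namespace Pool.Agent.H85.GF

open Polynomial NumberField Module Pool.Agent.H7.GF

/-- Ideals containing the integer `b`. -/
lemma ideals_card {F : Type} [Field F] [NumberField F] {n : ℕ} (hn : finrank ℚ F = n) {b : ℤ}
    (hb : b ≠ 0) : Finite (Ideal (𝓞 F ⧸ Ideal.span {(b : 𝓞 F)})) ∧
      Nat.card (Ideal (𝓞 F ⧸ Ideal.span {(b : 𝓞 F)})) ≤ 2 ^ (b.natAbs ^ n) := by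
  have h1 : Nat.card (𝓞 F ⧸ Ideal.span {(b : 𝓞 F)}) = b.natAbs ^ n := by
    have h2 := Ideal.absNorm_apply (Ideal.span {(b : 𝓞 F)})
    rw [Ideal.absNorm_span_singleton] at h2
    have h3 : Algebra.norm ℤ (b : 𝓞 F) = b ^ n := by
      have := Algebra.norm_algebraMap (S := 𝓞 F) b
      rw [RingOfIntegers.rank, hn] at this
      exact_mod_cast this
    rw [h3, Int.natAbs_pow] at h2
    exact h2.symm
  have hpos : 0 < b.natAbs ^ n := pow_pos (Int.natAbs_pos.2 hb) n
  have hfin : Finite (𝓞 F ⧸ Ideal.span {(b : 𝓞 F)}) := Nat.finite_of_card_ne_zero (by omega)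
  have hfin2 : Finite (Ideal (𝓞 F ⧸ Ideal.span {(b : 𝓞 F)})) :=
    Finite.of_injective (fun I : Ideal (𝓞 F ⧸ Ideal.span {(b : 𝓞 F)}) =>
      (I : Set (𝓞 F ⧸ Ideal.span {(b : 𝓞 F)}))) SetLike.coe_injective
  refine ⟨hfin2, ?_⟩
  have h4 : Nat.card (Ideal (𝓞 F ⧸ Ideal.span {(b : 𝓞 F)})) ≤
      Nat.card (Set (𝓞 F ⧸ Ideal.span {(b : 𝓞 F)})) :=
    Nat.card_le_card_of_injective (fun I : Ideal (𝓞 F ⧸ Ideal.span {(b : 𝓞 F)}) =>
      (I : Set (𝓞 F ⧸ Ideal.span {(b : 𝓞 F)}))) SetLike.coe_injective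
  have h5 : Nat.card (Set (𝓞 F ⧸ Ideal.span {(b : 𝓞 F)})) = 2 ^ (b.natAbs ^ n) := by
    rw [← h1]
    have := Fintype.ofFinite (𝓞 F ⧸ Ideal.span {(b : 𝓞 F)})
    classical
    rw [Nat.card_eq_fintype_card, Fintype.card_set, Nat.card_eq_fintype_card]
  exact h4.trans h5.le

/-- the ideal of the quotient attached to an element -/
noncomputable def redIdeal {F : Type} [Field F] [NumberField F] (b : ℤ) (γ : 𝓞 F) :
    Ideal (𝓞 F ⧸ Ideal.span {(b : 𝓞 F)}) :=
  Ideal.map (Ideal.Quotient.mk (Ideal.span {(b : 𝓞 F)})) (Ideal.span {γ})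

lemma b_mem {F : Type} [Field F] [NumberField F] {b : ℤ} {γ : 𝓞 F}
    (h : |Algebra.norm ℤ γ| = |b|) : (b : 𝓞 F) ∈ Ideal.span {γ} := by
  have h1 := Ideal.absNorm_mem (Ideal.span {γ})
  rw [Ideal.absNorm_span_singleton] at h1
  have h2 : (Algebra.norm ℤ γ).natAbs = b.natAbs := by
    have := congrArg Int.natAbs h
    rwa [Int.natAbs_abs, Int.natAbs_abs] at this
  rw [h2] at h1
  rcases Int.natAbs_eq b with h3 | h3
  · have h4 : ((b : ℤ) : 𝓞 F) = ((b.natAbs : ℕ) : 𝓞 F) := by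
      conv_lhs => rw [h3]
      rw [Int.cast_natCast]
    rw [h4]; exact h1
  · have h4 : ((b : ℤ) : 𝓞 F) = -((b.natAbs : ℕ) : 𝓞 F) := by
      conv_lhs => rw [h3]
      rw [Int.cast_neg, Int.cast_natCast]
    rw [h4]; exact (Ideal.span {γ}).neg_mem h1

lemma associated_of_redIdeal {F : Type} [Field F] [NumberField F] {b : ℤ} {γ γ' : 𝓞 F}
    (h : |Algebra.norm ℤ γ| = |b|) (h' : |Algebra.norm ℤ γ'| = |b|)
    (hr : redIdeal b γ = redIdeal b γ') : Associated γ γ' := by
  have key : ∀ δ : 𝓞 F, |Algebra.norm ℤ δ| = |b| →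
      Ideal.comap (Ideal.Quotient.mk (Ideal.span {(b : 𝓞 F)})) (redIdeal b δ) = Ideal.span {δ} := by
    intro δ hδ
    rw [redIdeal, Ideal.comap_map_of_surjective _ Ideal.Quotient.mk_surjective, ← RingHom.ker_eq_comap_bot,
      Ideal.mk_ker, sup_eq_left, Ideal.span_singleton_le_iff_mem]
    exact b_mem hδ
  have h1 : Ideal.span {γ} = Ideal.span {γ'} := by rw [← key γ h, ← key γ' h', hr]
  exact Ideal.span_singleton_eq_span_singleton.1 h1

lemma sum_mult_log {F : Type} [Field F] [NumberField F] {b : ℤ} (hb : b ≠ 0) {γ : 𝓞 F}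
    (h : |Algebra.norm ℤ γ| = |b|) :
    (∀ w : InfinitePlace F, 0 < w (γ : F)) ∧
      0 ≤ ∑ w : InfinitePlace F, w.mult * Real.log (w (γ : F)) := by
  have hγ : γ ≠ 0 := by
    rintro rfl
    rw [Algebra.norm_zero, abs_zero] at h
    exact hb (abs_eq_zero.1 h.symm)
  have hpos : ∀ w : InfinitePlace F, 0 < w (γ : F) := fun w =>
    (InfinitePlace.pos_iff).2 (by simpa using hγ)
  refine ⟨hpos, ?_⟩
  have h1 := InfinitePlace.prod_eq_abs_norm (γ : F)
  have h2 := congrArg Real.log h1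
  rw [Real.log_prod (fun w _ => (pow_pos (hpos w) _).ne')] at h2
  simp_rw [Real.log_pow] at h2
  rw [h2]
  apply Real.log_nonneg
  rw [← Algebra.coe_norm_int]
  have h3 : (1 : ℤ) ≤ |Algebra.norm ℤ γ| := by
    rw [h]; exact Int.one_le_abs hb
  exact_mod_cast h3

/-- bounding one term of a sum with weights -/
lemma single_bound {ι : Type} [Fintype ι] (m : ι → ℕ) (hm : ∀ i, 1 ≤ m i) {n : ℕ}
    (hn : ∑ i, m i = n) (x : ι → ℝ) {L : ℝ} (hL : 0 ≤ L) (w0 : ι) (hx : ∀ w, w ≠ w0 → x w ≤ L)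
    (hs : 0 ≤ ∑ i, (m i : ℝ) * x i) : -((n : ℝ) - 1) * L ≤ x w0 := by
  classical
  rcases le_or_gt 0 (x w0) with h0 | h0
  · refine le_trans ?_ h0
    have : (1 : ℝ) ≤ n := by
      have h1 : m w0 ≤ n := hn ▸ Finset.single_le_sum (f := m) (fun _ _ => Nat.zero_le _) (Finset.mem_univ w0)
      exact_mod_cast (hm w0).trans h1
    nlinarith
  · rw [← Finset.add_sum_erase _ _ (Finset.mem_univ w0)] at hs hn
    have h1 : ∑ i ∈ Finset.univ.erase w0, (m i : ℝ) * x i ≤ ∑ i ∈ Finset.univ.erase w0, (m i : ℝ) * L :=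
      Finset.sum_le_sum fun i hi => mul_le_mul_of_nonneg_left (hx i (Finset.ne_of_mem_erase hi)) (Nat.cast_nonneg _)
    rw [← Finset.sum_mul] at h1
    have h2 : (∑ i ∈ Finset.univ.erase w0, (m i : ℝ)) = n - m w0 := by
      rw [← hn]; push_cast; ring
    rw [h2] at h1
    have h3 : (1 : ℝ) ≤ m w0 := by exact_mod_cast hm w0
    nlinarith

lemma mult_pos' {F : Type} [Field F] (w : InfinitePlace F) : 1 ≤ w.mult := by
  unfold InfinitePlace.mult; split_ifs <;> norm_num

/-- **Core counting lemma.** -/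
theorem core {F : Type} [Field F] [NumberField F] {n : ℕ} (hn : finrank ℚ F = n) {b : ℤ}
    (hb : b ≠ 0) {B s : ℝ} (hB : 2 ≤ B) (hs : 0 < s) {M : ℕ}
    (hM : {ε : 𝓞 F | IsUnit ε ∧ ∀ w : InfinitePlace F, w (ε : F) ≤ Real.exp (((n : ℝ) - 1) * s)}.ncard ≤ M) :
    {γ : 𝓞 F | |Algebra.norm ℤ γ| = |b| ∧ ∀ w : InfinitePlace F, w (γ : F) ≤ B}.Finite ∧
    ({γ : 𝓞 F | |Algebra.norm ℤ γ| = |b| ∧ ∀ w : InfinitePlace F, w (γ : F) ≤ B}.ncard : ℝ) ≤
      M * (2 ^ (b.natAbs ^ n) * (n * Real.log B / s + 2) ^ (Fintype.card (InfinitePlace F) - 1)) := by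
  classical
  have hn1 : 1 ≤ n := by
    rw [← hn]; exact finrank_pos
  have hsum : ∑ w : InfinitePlace F, w.mult = n := by rw [InfinitePlace.sum_mult_eq, hn]
  set S : Set (𝓞 F) := {γ : 𝓞 F | |Algebra.norm ℤ γ| = |b| ∧ ∀ w : InfinitePlace F, w (γ : F) ≤ B} with hSdef
  set U : Set (𝓞 F) := {ε : 𝓞 F | IsUnit ε ∧ ∀ w : InfinitePlace F, w (ε : F) ≤ Real.exp (((n : ℝ) - 1) * s)} with hUdef
  have hSfin : S.Finite := ((pack F (fun _ => B) (fun _ => by linarith)).1).subset fun γ hγ => hγ.2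
  have hE : 1 ≤ Real.exp (((n : ℝ) - 1) * s) := by
    apply Real.one_le_exp
    have : (1 : ℝ) ≤ n := by exact_mod_cast hn1
    exact mul_nonneg (by linarith) hs.le
  have hUfin : U.Finite := ((pack F (fun _ => Real.exp (((n : ℝ) - 1) * s)) (fun _ => hE)).1).subset
    fun γ hγ => hγ.2
  refine ⟨hSfin, ?_⟩
  obtain ⟨w0⟩ := (inferInstance : Nonempty (InfinitePlace F))
  obtain ⟨hIfin, hIcard⟩ := ideals_card (F := F) hn hb
  have := Fintype.ofFinite (Ideal (𝓞 F ⧸ Ideal.span {(b : 𝓞 F)}))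
  set L := Real.log B with hL
  have hLpos : 0 ≤ L := Real.log_nonneg (by linarith)
  -- range of the logarithms
  have hrange : ∀ γ ∈ S, ∀ w : InfinitePlace F,
      -((n : ℝ) - 1) * L ≤ Real.log (w (γ : F)) ∧ Real.log (w (γ : F)) ≤ L := by
    intro γ hγ w
    obtain ⟨hpos, hsm⟩ := sum_mult_log hb hγ.1
    have h1 : ∀ w : InfinitePlace F, Real.log (w (γ : F)) ≤ L := fun w =>
      Real.log_le_log (hpos w) (hγ.2 w)
    exact ⟨single_bound (fun w : InfinitePlace F => w.mult) mult_pos' hsum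
      (fun w => Real.log (w (γ : F))) hLpos w (fun w' _ => h1 w') hsm, h1 w⟩
  set lo : ℤ := ⌊-((n : ℝ) - 1) * L / s⌋ with hlo
  set hi : ℤ := ⌊L / s⌋ with hhi
  set Φ : 𝓞 F → Ideal (𝓞 F ⧸ Ideal.span {(b : 𝓞 F)}) × ({w : InfinitePlace F // w ≠ w0} → ℤ) :=
    fun γ => (redIdeal b γ, fun w => ⌊Real.log (w.1 (γ : F)) / s⌋) with hΦ
  set T : Finset (Ideal (𝓞 F ⧸ Ideal.span {(b : 𝓞 F)}) × ({w : InfinitePlace F // w ≠ w0} → ℤ)) :=
    Finset.univ ×ˢ Fintype.piFinset (fun _ => Finset.Icc lo hi) with hT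
  have hmaps : ∀ γ ∈ hSfin.toFinset, Φ γ ∈ T := by
    intro γ hγ
    rw [Set.Finite.mem_toFinset] at hγ
    rw [hT, Finset.mem_product, Fintype.mem_piFinset]
    refine ⟨Finset.mem_univ _, fun w => Finset.mem_Icc.2 ?_⟩
    obtain ⟨h1, h2⟩ := hrange γ hγ w.1
    exact ⟨Int.floor_le_floor (by gcongr), Int.floor_le_floor (by gcongr)⟩
  have hfib : ∀ y ∈ T, (hSfin.toFinset.filter (fun γ => Φ γ = y)).card ≤ M := by
    intro y _
    rcases (hSfin.toFinset.filter (fun γ => Φ γ = y)).eq_empty_or_nonempty with h0 | ⟨γ0, h0⟩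
    · rw [h0]; simp
    · rw [Finset.mem_filter, Set.Finite.mem_toFinset] at h0
      have hsub : hSfin.toFinset.filter (fun γ => Φ γ = y) ⊆ hUfin.toFinset.image (fun ε => γ0 * ε) := by
        intro γ hγ
        rw [Finset.mem_filter, Set.Finite.mem_toFinset] at hγ
        have hΦeq : Φ γ0 = Φ γ := h0.2.trans hγ.2.symm
        rw [hΦ] at hΦeq
        simp only [Prod.mk.injEq] at hΦeq
        obtain ⟨hi1, hi2⟩ := hΦeq
        obtain ⟨u, hu⟩ := associated_of_redIdeal h0.1.1 hγ.1.1 hi1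
        rw [Finset.mem_image]
        refine ⟨(u : 𝓞 F), ?_, hu⟩
        rw [Set.Finite.mem_toFinset]
        refine ⟨u.isUnit, fun w => ?_⟩
        have hpos0 := (sum_mult_log hb h0.1.1).1
        have hlog : ∀ w : InfinitePlace F, Real.log (w ((u : 𝓞 F) : F)) =
            Real.log (w (γ : F)) - Real.log (w (γ0 : F)) := by
          intro w
          have hu0 : 0 < w ((u : 𝓞 F) : F) := (InfinitePlace.pos_iff).2 (by simp)
          rw [← hu]
          push_cast
          rw [map_mul, Real.log_mul (hpos0 w).ne' hu0.ne']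
          ring
        have hw : ∀ w : InfinitePlace F, w ≠ w0 → |Real.log (w ((u : 𝓞 F) : F))| ≤ s := by
          intro w hw
          have h1 := congrFun hi2 ⟨w, hw⟩
          have h2 := Int.abs_sub_lt_one_of_floor_eq_floor h1
          simp only at h2
          rw [← sub_div, abs_div, abs_of_pos hs, div_lt_one hs, abs_sub_comm] at h2
          rw [hlog]
          exact h2.le
        have hsum0 := Units.sum_mult_mul_log u
        have hall : Real.log (w ((u : 𝓞 F) : F)) ≤ ((n : ℝ) - 1) * s := by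
          by_cases hww : w = w0
          · subst hww
            have h3 := single_bound (fun w : InfinitePlace F => w.mult) mult_pos' hsum
              (fun w => -Real.log (w ((u : 𝓞 F) : F))) hs.le w
              (fun w' hw' => by
                have := (abs_le.1 (hw w' hw')).1
                linarith)
              (by
                have h4 : ∑ i : InfinitePlace F, ((i.mult : ℝ)) * -Real.log (i ((u : 𝓞 F) : F)) =
                  -∑ i : InfinitePlace F, ((i.mult : ℝ)) * Real.log (i ((u : 𝓞 F) : F)) := by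
                  rw [← Finset.sum_neg_distrib]
                  exact Finset.sum_congr rfl fun _ _ => by ring
                rw [h4]
                have h5 : ∑ i : InfinitePlace F, ((i.mult : ℝ)) * Real.log (i ((u : 𝓞 F) : F)) = 0 := hsum0
                rw [h5]; simp)
            linarith
          · have h1 := (abs_le.1 (hw w hww)).2
            have h2 : 2 ≤ n := by
              have h3 : w.mult + w0.mult ≤ n := by
                rw [← hsum, ← Finset.sum_pair (f := fun v : InfinitePlace F => v.mult) hww]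
                exact Finset.sum_le_sum_of_subset (Finset.subset_univ _)
              have := mult_pos' w
              have := mult_pos' w0
              omega
            have h3 : (2 : ℝ) ≤ n := by exact_mod_cast h2
            nlinarith
        have hu0 : 0 < w ((u : 𝓞 F) : F) := (InfinitePlace.pos_iff).2 (by simp)
        calc w ((u : 𝓞 F) : F) = Real.exp (Real.log (w ((u : 𝓞 F) : F))) := (Real.exp_log hu0).symm
          _ ≤ _ := Real.exp_le_exp.2 hall
      calc (hSfin.toFinset.filter (fun γ => Φ γ = y)).card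
          ≤ (hUfin.toFinset.image (fun ε => γ0 * ε)).card := Finset.card_le_card hsub
        _ ≤ hUfin.toFinset.card := Finset.card_image_le
        _ = U.ncard := (Set.ncard_eq_toFinset_card U hUfin).symm
        _ ≤ M := hM
  have hmain := Finset.card_le_mul_card_image_of_maps_to hmaps M hfib
  rw [← Set.ncard_eq_toFinset_card S hSfin] at hmain
  have hTcard : (T.card : ℝ) ≤ 2 ^ (b.natAbs ^ n) *
      (n * L / s + 2) ^ (Fintype.card (InfinitePlace F) - 1) := by
    rw [hT, Finset.card_product, Fintype.card_piFinset]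
    simp only [Finset.prod_const, Finset.card_univ, Fintype.card_subtype_compl, Fintype.card_subtype_eq,
      Nat.cast_mul, Nat.cast_pow]
    have h1 : ((Fintype.card (Ideal (𝓞 F ⧸ Ideal.span {(b : 𝓞 F)})) : ℕ) : ℝ) ≤ 2 ^ (b.natAbs ^ n) := by
      rw [Nat.card_eq_fintype_card] at hIcard
      exact_mod_cast hIcard
    have h2 : ((Finset.Icc lo hi).card : ℝ) ≤ n * L / s + 2 := by
      rw [Int.card_Icc]
      have hn1' : (1 : ℝ) ≤ n := by exact_mod_cast hn1
      have h3 : lo ≤ hi := by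
        rw [hlo, hhi]
        apply Int.floor_le_floor
        gcongr
        nlinarith
      have h4 : (((hi + 1 - lo).toNat : ℕ) : ℝ) = ((hi + 1 - lo : ℤ) : ℝ) := by
        rw [← Int.cast_natCast, Int.toNat_of_nonneg (by omega)]
      rw [h4]
      push_cast
      have h5 : (hi : ℝ) ≤ L / s := Int.floor_le _
      have h6 : -((n : ℝ) - 1) * L / s < lo + 1 := Int.lt_floor_add_one _
      have h7 : (n : ℝ) * L / s = L / s - (-((n : ℝ) - 1) * L / s) := by ring
      rw [h7]
      linarith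
    exact mul_le_mul h1 (pow_le_pow_left₀ (Nat.cast_nonneg _) h2 _) (by positivity) (by positivity)
  calc (S.ncard : ℝ) ≤ ((M * T.card : ℕ) : ℝ) := by exact_mod_cast hmain
    _ = M * (T.card : ℝ) := by push_cast; ring
    _ ≤ _ := mul_le_mul_of_nonneg_left hTcard (Nat.cast_nonneg _)

end Pool.Agent.H85.GF
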