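import Pool.Agent.H7.GF.Targets1

/-!
# MP_cd65c5_nt: packing of integers of a number field in a box (module PACK)
-/

set_option autoImplicit false

namespace Pool.Agent.H85.GF

open Polynomial NumberField Module Pool.Agent.H7.GF

/-- index of the cell of side 1/2 -/
noncomputable def idx {F : Type} [Field F] [NumberField F] (γ : 𝓞 F) (w : InfinitePlace F) : ℤ × ℤ :=
  (⌊2 * (w.embedding (γ : F)).re⌋, ⌊2 * (w.embedding (γ : F)).im⌋)

open Classical in
/-- the possible cells -/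
noncomputable def cells {F : Type} [Field F] [NumberField F] (B : InfinitePlace F → ℝ)
    (w : InfinitePlace F) : Finset (ℤ × ℤ) :=
  if w.IsReal then (Finset.Icc ⌊-(2 * B w)⌋ ⌊2 * B w⌋) ×ˢ {0}
  else (Finset.Icc ⌊-(2 * B w)⌋ ⌊2 * B w⌋) ×ˢ (Finset.Icc ⌊-(2 * B w)⌋ ⌊2 * B w⌋)

lemma card_Icc_cells {B : ℝ} (hB : 1 ≤ B) :
    ((Finset.Icc ⌊-(2 * B)⌋ ⌊2 * B⌋).card : ℝ) ≤ 6 * B := by
  rw [Int.card_Icc]
  have h1 : ⌊-(2 * B)⌋ ≤ ⌊2 * B⌋ := Int.floor_le_floor (by linarith)
  have h2 : (((⌊2 * B⌋ + 1 - ⌊-(2 * B)⌋).toNat : ℕ) : ℝ) = ((⌊2 * B⌋ + 1 - ⌊-(2 * B)⌋ : ℤ) : ℝ) := by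
    rw [← Int.cast_natCast, Int.toNat_of_nonneg (by omega)]
  rw [h2]
  push_cast
  have h3 := Int.floor_le (2 * B)
  have h4 := Int.lt_floor_add_one (-(2 * B))
  linarith

lemma card_cells {F : Type} [Field F] [NumberField F] {B : InfinitePlace F → ℝ}
    {w : InfinitePlace F} (hB : 1 ≤ B w) : ((cells B w).card : ℝ) ≤ (6 * B w) ^ w.mult := by
  have h := card_Icc_cells hB
  unfold cells
  by_cases hw : w.IsReal
  · rw [if_pos hw, Finset.card_product, Finset.card_singleton, mul_one]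
    have : w.mult = 1 := by simp [InfinitePlace.mult, hw]
    rw [this, pow_one]
    exact h
  · rw [if_neg hw, Finset.card_product]
    have : w.mult = 2 := by simp [InfinitePlace.mult, hw]
    rw [this, pow_two]
    push_cast
    exact mul_le_mul h h (Nat.cast_nonneg _) (by linarith)

lemma idx_mem {F : Type} [Field F] [NumberField F] {B : InfinitePlace F → ℝ}
    {w : InfinitePlace F} {γ : 𝓞 F} (h : w (γ : F) ≤ B w) : idx γ w ∈ cells B w := by
  have hn : ‖w.embedding (γ : F)‖ ≤ B w := by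
    rw [InfinitePlace.norm_embedding_eq]; exact h
  have hre := (Complex.abs_re_le_norm (w.embedding (γ : F))).trans hn
  have him := (Complex.abs_im_le_norm (w.embedding (γ : F))).trans hn
  rw [abs_le] at hre him
  have h1 : ⌊2 * (w.embedding (γ : F)).re⌋ ∈ Finset.Icc ⌊-(2 * B w)⌋ ⌊2 * B w⌋ :=
    Finset.mem_Icc.2 ⟨Int.floor_le_floor (by linarith [hre.1]), Int.floor_le_floor (by linarith [hre.2])⟩
  unfold cells idx
  by_cases hw : w.IsReal
  · rw [if_pos hw]
    refine Finset.mem_product.2 ⟨h1, ?_⟩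
    have h2 : (w.embedding (γ : F)).im = 0 := by
      have := InfinitePlace.isReal_iff.1 hw
      have h3 := ComplexEmbedding.isReal_iff.1 this
      have h4 : (starRingEnd ℂ) (w.embedding (γ : F)) = w.embedding (γ : F) := by
        conv_rhs => rw [← h3]
        rfl
      exact Complex.conj_eq_iff_im.1 h4
    simp [h2]
  · rw [if_neg hw]
    exact Finset.mem_product.2 ⟨h1, Finset.mem_Icc.2
      ⟨Int.floor_le_floor (by linarith [him.1]), Int.floor_le_floor (by linarith [him.2])⟩⟩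

lemma eq_of_lt_one {F : Type} [Field F] [NumberField F] {δ : 𝓞 F}
    (h : ∀ w : InfinitePlace F, w (δ : F) < 1) : δ = 0 := by
  by_contra h0
  obtain ⟨w⟩ := (inferInstance : Nonempty (InfinitePlace F))
  have := InfinitePlace.one_le_of_lt_one (w := w) h0 (fun z _ => h z)
  exact absurd (h w) (not_lt.2 this)

lemma idx_inj {F : Type} [Field F] [NumberField F] {γ γ' : 𝓞 F} (h : idx γ = idx γ') : γ = γ' := by
  have h0 : γ - γ' = 0 := by
    refine eq_of_lt_one fun w => ?_
    have hw := congrFun h w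
    rw [idx, idx, Prod.mk.injEq] at hw
    have h1 := Int.abs_sub_lt_one_of_floor_eq_floor hw.1
    have h2 := Int.abs_sub_lt_one_of_floor_eq_floor hw.2
    rw [← InfinitePlace.norm_embedding_eq]
    refine lt_of_le_of_lt (Complex.norm_le_abs_re_add_abs_im _) ?_
    have e : w.embedding ((γ - γ' : 𝓞 F) : F) = w.embedding (γ : F) - w.embedding (γ' : F) := by
      simp
    rw [e, Complex.sub_re, Complex.sub_im]
    rw [← mul_sub, abs_mul, abs_two] at h1 h2
    linarith
  exact sub_eq_zero.1 h0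

/-- **PACK** -/
theorem pack : T_PACK := by
  intro F _ _ B hB
  classical
  set S : Set (𝓞 F) := {γ : 𝓞 F | ∀ w : InfinitePlace F, w (γ : F) ≤ B w} with hS
  set T : Finset (InfinitePlace F → ℤ × ℤ) := Fintype.piFinset (cells B) with hT
  have hmaps : ∀ γ ∈ S, idx γ ∈ (T : Set (InfinitePlace F → ℤ × ℤ)) := by
    intro γ hγ
    rw [hT, Finset.mem_coe, Fintype.mem_piFinset]
    exact fun w => idx_mem (hγ w)
  have hinj : Set.InjOn (fun γ : 𝓞 F => idx γ) S := fun a _ b _ hab => idx_inj hab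
  have hfin : S.Finite := Set.Finite.of_injOn hmaps hinj T.finite_toSet
  refine ⟨hfin, ?_⟩
  have h1 : S.ncard ≤ (T : Set (InfinitePlace F → ℤ × ℤ)).ncard :=
    Set.ncard_le_ncard_of_injOn (fun γ : 𝓞 F => idx γ) hmaps hinj T.finite_toSet
  rw [Set.ncard_coe_finset, hT, Fintype.card_piFinset] at h1
  calc (S.ncard : ℝ) ≤ ((∏ w : InfinitePlace F, (cells B w).card : ℕ) : ℝ) := by exact_mod_cast h1
    _ = ∏ w : InfinitePlace F, ((cells B w).card : ℝ) := by push_cast; rfl
    _ ≤ _ := Finset.prod_le_prod (fun _ _ => Nat.cast_nonneg _) (fun w _ => card_cells (hB w))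

end Pool.Agent.H85.GF
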